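import Pool.Agent.CRD.B.AMP
import Pool.Agent.CRD.B.All
import Pool.Agent.CRD.B.FGU
import Pool.Agent.CRD.B.GDE
import Pool.Agent.CRD.B.GDX
import Pool.Agent.CRD.B.HFN
import Pool.Agent.CRD.B.PAM
import Pool.Agent.CRD.B.SGD
import Pool.Agent.CRD.B.SRA
import Pool.Agent.CRD.B.VBD
import Pool.Agent.CRD.B.VBR
import Pool.Agent.CRD.Br.All
import Pool.Agent.CRD.Br.CAR
import Pool.Agent.CRD.Br.COH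
import Pool.Agent.CRD.Br.GOO
import Pool.Agent.CRD.C.All
import Pool.Agent.CRD.C.DTP
import Pool.Agent.CRD.C.DTR
import Pool.Agent.CRD.C.DVD
import Pool.Agent.CRD.C.EVP
import Pool.Agent.CRD.C.EVS
import Pool.Agent.CRD.C.EXD
import Pool.Agent.CRD.C.LAT
import Pool.Agent.CRD.C.LAll
import Pool.Agent.CRD.C.LSB
import Pool.Agent.CRD.C.PT2
import Pool.Agent.CRD.Cnc.ADF
import Pool.Agent.CRD.Cnc.All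
import Pool.Agent.CRD.Cnc.CDD
import Pool.Agent.CRD.Cnc.CDM
import Pool.Agent.CRD.Cnc.CFD
import Pool.Agent.CRD.Cnc.CLA
import Pool.Agent.CRD.Cnc.CLB
import Pool.Agent.CRD.Cnc.CPC
import Pool.Agent.CRD.Cnc.CTT
import Pool.Agent.CRD.Cnc.LMA
import Pool.Agent.CRD.Cnc.LMB
import Pool.Agent.CRD.Cnc.OJN
import Pool.Agent.CRD.Cnc.PTS
import Pool.Agent.CRD.Cnc.RKA
import Pool.Agent.CRD.Cnc.RR1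
import Pool.Agent.CRD.Cnc.TFD
import Pool.Agent.CRD.Crv.ACF
import Pool.Agent.CRD.Crv.CBA
import Pool.Agent.CRD.Crv.DEX
import Pool.Agent.CRD.Crv.JFS
import Pool.Agent.CRD.Crv.JMO
import Pool.Agent.CRD.Crv.NSO
import Pool.Agent.CRD.D1.AF1
import Pool.Agent.CRD.D1.AF2
import Pool.Agent.CRD.D1.ASM
import Pool.Agent.CRD.D1.CCD
import Pool.Agent.CRD.D1.CLS
import Pool.Agent.CRD.D1.COI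
import Pool.Agent.CRD.D1.COQ
import Pool.Agent.CRD.D1.EXB
import Pool.Agent.CRD.D1.EX2
import Pool.Agent.CRD.D1.EXA
import Pool.Agent.CRD.D1.EXC
import Pool.Agent.CRD.D1.FGX
import Pool.Agent.CRD.D1.GOX
import Pool.Agent.CRD.D1.HER
import Pool.Agent.CRD.D1.LCX
import Pool.Agent.CRD.D1.LFT
import Pool.Agent.CRD.D1.MUY
import Pool.Agent.CRD.D1.MVX
import Pool.Agent.CRD.D1.PNT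
import Pool.Agent.CRD.D1.PTD
import Pool.Agent.CRD.D1.RES
import Pool.Agent.CRD.D1.RET
import Pool.Agent.CRD.D1.RTR
import Pool.Agent.CRD.D1.SEQ
import Pool.Agent.CRD.D1.TFA
import Pool.Agent.CRD.D1.TFB
import Pool.Agent.CRD.D1.TFR
import Pool.Agent.CRD.D1.TFS
import Pool.Agent.CRD.D1.TOM
import Pool.Agent.CRD.D1.TOR
import Pool.Agent.CRD.D1.TRC
import Pool.Agent.CRD.D2.ADI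
import Pool.Agent.CRD.D2.ADV
import Pool.Agent.CRD.D2.BCS
import Pool.Agent.CRD.D2.CE2
import Pool.Agent.CRD.D2.CEO
import Pool.Agent.CRD.D2.CHS
import Pool.Agent.CRD.D2.CHT
import Pool.Agent.CRD.D2.D2F
import Pool.Agent.CRD.D2.EXT
import Pool.Agent.CRD.D2.FFL
import Pool.Agent.CRD.D2.FFX
import Pool.Agent.CRD.D2.FLB
import Pool.Agent.CRD.D2.FLC
import Pool.Agent.CRD.D2.HFC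
import Pool.Agent.CRD.D2.IDQ
import Pool.Agent.CRD.D2.ISO
import Pool.Agent.CRD.D2.JTW
import Pool.Agent.CRD.D2.KOM
import Pool.Agent.CRD.D2.KOZ
import Pool.Agent.CRD.D2.LNK
import Pool.Agent.CRD.D2.NM1
import Pool.Agent.CRD.D2.NM2
import Pool.Agent.CRD.D2.NMR
import Pool.Agent.CRD.D2.NUM
import Pool.Agent.CRD.D2.RRF
import Pool.Agent.CRD.D2.SRV
import Pool.Agent.CRD.D2.TCH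
import Pool.Agent.CRD.D2.TFX
import Pool.Agent.CRD.D2.TWG
import Pool.Agent.CRD.E.E1N
import Pool.Agent.CRD.F2.All
import Pool.Agent.CRD.F2.BCH
import Pool.Agent.CRD.F2.BCJ
import Pool.Agent.CRD.F2.DIM
import Pool.Agent.CRD.F2.DM1
import Pool.Agent.CRD.F2.DM2
import Pool.Agent.CRD.F2.F2K
import Pool.Agent.CRD.F2.FAM
import Pool.Agent.CRD.F2.GMF
import Pool.Agent.CRD.F2.INT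
import Pool.Agent.CRD.F2.PDS
import Pool.Agent.CRD.F2.PDX
import Pool.Agent.CRD.F2.PFT
import Pool.Agent.CRD.F2.PJA
import Pool.Agent.CRD.F2.PJC
import Pool.Agent.CRD.F2.PJD
import Pool.Agent.CRD.F2.PJE
import Pool.Agent.CRD.F2.PJF
import Pool.Agent.CRD.F2.PJM
import Pool.Agent.CRD.F2.PXS
import Pool.Agent.CRD.F2.PXV
import Pool.Agent.CRD.F2.RSK
import Pool.Agent.CRD.F2.SMC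
import Pool.Agent.CRD.F2.ZSU
import Pool.Agent.CRD.Fib.AUS
import Pool.Agent.CRD.Fib.CGL
import Pool.Agent.CRD.Fib.CKS
import Pool.Agent.CRD.Fib.CMC
import Pool.Agent.CRD.Fib.EVK
import Pool.Agent.CRD.Fib.GBK
import Pool.Agent.CRD.Fib.GCO
import Pool.Agent.CRD.Fib.GLT
import Pool.Agent.CRD.Fib.GOK
import Pool.Agent.CRD.Fib.GOL
import Pool.Agent.CRD.Fib.GTR
import Pool.Agent.CRD.Fib.ICO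
import Pool.Agent.CRD.Fib.IES
import Pool.Agent.CRD.Fib.IEX
import Pool.Agent.CRD.Fib.IFF
import Pool.Agent.CRD.Fib.LOO
import Pool.Agent.CRD.Fib.OXZ
import Pool.Agent.CRD.Fib.QUI
import Pool.Agent.CRD.Fib.SGL
import Pool.Agent.CRD.Fib.SKC
import Pool.Agent.CRD.Fib.SKP
import Pool.Agent.CRD.Fib.XFR
import Pool.Agent.CRD.Fib.XGL
import Pool.Agent.CRD.Fib.XLO
import Pool.Agent.CRD.Fib.ZVC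
import Pool.Agent.CRD.Fib.ZVS
import Pool.Agent.CRD.G.All
import Pool.Agent.CRD.G.BRA
import Pool.Agent.CRD.G.CHP
import Pool.Agent.CRD.G.CNT
import Pool.Agent.CRD.G.DFF
import Pool.Agent.CRD.G.DSC
import Pool.Agent.CRD.G.DVB
import Pool.Agent.CRD.G.EFF
import Pool.Agent.CRD.G.EFS
import Pool.Agent.CRD.G.FGN
import Pool.Agent.CRD.G.FPD
import Pool.Agent.CRD.G.FRX
import Pool.Agent.CRD.G.FTC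
import Pool.Agent.CRD.G.FTL
import Pool.Agent.CRD.G.FTT
import Pool.Agent.CRD.G.FTU
import Pool.Agent.CRD.G.GNA
import Pool.Agent.CRD.G.GNR
import Pool.Agent.CRD.G.GRG
import Pool.Agent.CRD.G.KCA
import Pool.Agent.CRD.G.KOS
import Pool.Agent.CRD.G.LBI
import Pool.Agent.CRD.G.LER
import Pool.Agent.CRD.G.LFO
import Pool.Agent.CRD.G.LOS
import Pool.Agent.CRD.G.LRA
import Pool.Agent.CRD.G.LRB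
import Pool.Agent.CRD.G.LRC
import Pool.Agent.CRD.G.LRD
import Pool.Agent.CRD.G.MOR
import Pool.Agent.CRD.G.PCO
import Pool.Agent.CRD.G.PRA
import Pool.Agent.CRD.G.PRF
import Pool.Agent.CRD.G.PSI
import Pool.Agent.CRD.G.PUC
import Pool.Agent.CRD.G.RAC
import Pool.Agent.CRD.G.SBF
import Pool.Agent.CRD.G.SER
import Pool.Agent.CRD.G.SEX
import Pool.Agent.CRD.G.STF
import Pool.Agent.CRD.G.SYM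
import Pool.Agent.CRD.G.TEX
import Pool.Agent.CRD.G.TTH
import Pool.Agent.CRD.G.TWA
import Pool.Agent.CRD.G.TWB
import Pool.Agent.CRD.G.TWC
import Pool.Agent.CRD.G.Wrap
import Pool.Agent.CRD.Phi.ADN
import Pool.Agent.CRD.Phi.CCM
import Pool.Agent.CRD.Phi.CPS
import Pool.Agent.CRD.Phi.D4A
import Pool.Agent.CRD.Phi.FLT
import Pool.Agent.CRD.Phi.H2O
import Pool.Agent.CRD.Phi.IXT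
import Pool.Agent.CRD.Phi.KZX
import Pool.Agent.CRD.Phi.LBC
import Pool.Agent.CRD.Phi.LBE
import Pool.Agent.CRD.Phi.PHF
import Pool.Agent.CRD.Phi.PHO
import Pool.Agent.CRD.Phi.PHT
import Pool.Agent.CRD.Phi.POK
import Pool.Agent.CRD.Phi.RDF
import Pool.Agent.CRD.Phi.RKB
import Pool.Agent.CRD.Phi.RKC
import Pool.Agent.CRD.Phi.RKP
import Pool.Agent.CRD.Phi.RKT
import Pool.Agent.CRD.Phi.RPR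
import Pool.Agent.CRD.Phi.SGT
import Pool.Agent.CRD.Phi.SKV
import Pool.Agent.CRD.Phi.TRS
import Pool.Agent.CRD.Phi.TWM
import Pool.Agent.CRD.Phi.VNC
import Pool.Agent.CRD.Sa.CRD3
import Pool.Agent.CRD.Sa.LPJ
import Pool.Agent.CRD.Sa.SO1
import Pool.Agent.CRD.Sa.SO2
import Pool.Agent.CRD.Sa.SPS
import Pool.Agent.CRD.Sa.TSA
import Pool.Agent.CRD.T.All
import Pool.Agent.CRD.T.CCT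
import Pool.Agent.CRD.T.CLA
import Pool.Agent.CRD.T.CYA
import Pool.Agent.CRD.T.CYC
import Pool.Agent.CRD.T.CYR
import Pool.Agent.CRD.T.CYS
import Pool.Agent.CRD.T.D3M
import Pool.Agent.CRD.T.FN0
import Pool.Agent.CRD.T.FRS
import Pool.Agent.CRD.T.JDL
import Pool.Agent.CRD.T.KA2
import Pool.Agent.CRD.T.KPB
import Pool.Agent.CRD.T.LAM
import Pool.Agent.CRD.T.MVE
import Pool.Agent.CRD.T.PRJ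
import Pool.Agent.CRD.T.REP
import Pool.Agent.CRD.T.RKF
import Pool.Agent.CRD.T.RKV
import Pool.Agent.CRD.T.STB
import Pool.Agent.CRD.T.TAU
import Pool.Agent.CRD.T.TRA
import Pool.Agent.CRD.T.VLN
import Pool.Agent.CRD.Top.All

namespace Pool.CRD.Main

theorem ok_Stmt_T1A : Pool.CRD.Stmt_T1A :=
  Pool.CRD.t1a_proof 

theorem ok_Stmt_T2A : Pool.CRD.Stmt_T2A :=
  Pool.CRD.t2a_proof 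

theorem ok_Stmt_IYT : Pool.CRD.Stmt_IYT :=
  Pool.CRD.iyt_proof 

theorem ok_D1_Stmt_AMX : Pool.CRD.D1.Stmt_AMX :=
  Pool.CRD.G.All_.ok_D1_Stmt_AMX 

theorem ok_Stmt_SRA : Pool.CRD.Stmt_SRA :=
  Pool.CRD.sra_proof 

theorem ok_Stmt_TWK : Pool.CRD.Stmt_TWK :=
  Pool.CRD.G.All_.ok_Stmt_TWK 

theorem ok_Stmt_SEF : Pool.CRD.Stmt_SEF :=
  Pool.CRD.G.All_.ok_Stmt_SEF 

theorem ok_Stmt_SFG : Pool.CRD.Stmt_SFG :=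
  Pool.CRD.AB.t_sfg 

theorem ok_Stmt_BDM : Pool.CRD.Stmt_BDM :=
  Pool.CRD.AB.t_bdm 

theorem ok_Stmt_FFD : Pool.CRD.Stmt_FFD :=
  Pool.CRD.G.All_.ok_Stmt_FFD 

theorem ok_Stmt_TRF : Pool.CRD.Stmt_TRF :=
  Pool.CRD.AB.t_trf 

theorem ok_Stmt_DVS : Pool.CRD.Stmt_DVS :=
  Pool.CRD.G.All_.ok_Stmt_DVS 

theorem ok_Stmt_HFN : Pool.CRD.Stmt_HFN :=
  Pool.CRD.hfn_proof ok_Stmt_SFG ok_Stmt_BDM ok_Stmt_SEF ok_Stmt_FFD ok_Stmt_TRF ok_Stmt_DVS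

theorem ok_Stmt_VBR : Pool.CRD.Stmt_VBR :=
  Pool.CRD.vbr_proof 

theorem ok_Stmt_VBD : Pool.CRD.Stmt_VBD :=
  Pool.CRD.vbd_proof ok_Stmt_VBR

theorem ok_G_Stmt_PRF : Pool.CRD.G.Stmt_PRF :=
  Pool.CRD.G.prf_proof 

theorem ok_FB_Stmt_SGL : Pool.CRD.FB.Stmt_SGL :=
  Pool.CRD.FB.sgl_proof ok_G_Stmt_PRF

theorem ok_FB_Stmt_AUS : Pool.CRD.FB.Stmt_AUS :=
  Pool.CRD.FB.aus_proof 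

theorem ok_Stmt_GDX : Pool.CRD.Stmt_GDX :=
  Pool.CRD.gdx_proof 

theorem ok_Stmt_GDE : Pool.CRD.Stmt_GDE :=
  Pool.CRD.gde_proof 

theorem ok_Stmt_GDL : Pool.CRD.Stmt_GDL :=
  Pool.CRD.AB.t_gdl 

theorem ok_FB_Stmt_CGL : Pool.CRD.FB.Stmt_CGL :=
  Pool.CRD.FB.cgl_proof ok_Stmt_GDX ok_Stmt_GDE ok_Stmt_GDL

theorem ok_FB_Stmt_XGL : Pool.CRD.FB.Stmt_XGL :=
  Pool.CRD.FB.xgl_proof ok_FB_Stmt_SGL ok_FB_Stmt_AUS ok_FB_Stmt_CGL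

theorem ok_Cn_Stmt_CND : Pool.CRD.Cn.Stmt_CND :=
  Pool.CRD.Cn.aCND 

theorem ok_FB_Stmt_LNK : Pool.CRD.FB.Stmt_LNK :=
  Pool.CRD.FB.lnk_proof ok_Stmt_FFD

theorem ok_FB_Stmt_CE2 : Pool.CRD.FB.Stmt_CE2 :=
  Pool.CRD.FB.ce2_proof 

theorem ok_FB_Stmt_ADI : Pool.CRD.FB.Stmt_ADI :=
  Pool.CRD.FB.adi_proof 

theorem ok_FB_Stmt_CMC : Pool.CRD.FB.Stmt_CMC :=
  Pool.CRD.FB.cmc_proof 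

theorem ok_FB_Stmt_ZVC : Pool.CRD.FB.Stmt_ZVC :=
  Pool.CRD.FB.zvc_proof ok_FB_Stmt_CMC

theorem ok_FB_Stmt_GBK : Pool.CRD.FB.Stmt_GBK :=
  Pool.CRD.FB.gbk_proof ok_FB_Stmt_ZVC

theorem ok_FB_Stmt_IEX : Pool.CRD.FB.Stmt_IEX :=
  Pool.CRD.FB.iex_proof 

theorem ok_FB_Stmt_EXT : Pool.CRD.FB.Stmt_EXT :=
  Pool.CRD.FB.ext_proof ok_FB_Stmt_LNK ok_FB_Stmt_CE2 ok_FB_Stmt_ADI ok_FB_Stmt_GBK ok_FB_Stmt_IEX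

theorem ok_Cn_Stmt_CLA : Pool.CRD.Cn.Stmt_CLA :=
  Pool.CRD.Cn.cla_proof 

theorem ok_Cn_Stmt_CLB : Pool.CRD.Cn.Stmt_CLB :=
  Pool.CRD.Cn.clb_proof 

theorem ok_Cn_Stmt_CPC : Pool.CRD.Cn.Stmt_CPC :=
  Pool.CRD.Cn.cpc_proof ok_Cn_Stmt_CLA ok_Cn_Stmt_CLB

theorem ok_Cn_Stmt_CDM : Pool.CRD.Cn.Stmt_CDM :=
  Pool.CRD.Cn.cdm_proof 

theorem ok_Cn_Stmt_CDD : Pool.CRD.Cn.Stmt_CDD :=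
  Pool.CRD.Cn.cdd_proof ok_Cn_Stmt_CDM ok_Cn_Stmt_CLA

theorem ok_Stmt_PAM : Pool.CRD.Stmt_PAM :=
  Pool.CRD.pam_proof 

theorem ok_FB_Stmt_HFC : Pool.CRD.FB.Stmt_HFC :=
  Pool.CRD.FB.hfc_proof ok_Cn_Stmt_CPC ok_Cn_Stmt_CDD ok_Stmt_PAM ok_Stmt_SEF ok_Stmt_HFN

theorem ok_FB_Stmt_CHT : Pool.CRD.FB.Stmt_CHT :=
  Pool.CRD.FB.cht_proof 

theorem ok_FB_Stmt_CHS : Pool.CRD.FB.Stmt_CHS :=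
  Pool.CRD.FB.chs_proof ok_FB_Stmt_CHT

theorem ok_FB_Stmt_CEO : Pool.CRD.FB.Stmt_CEO :=
  Pool.CRD.FB.ceo_proof 

theorem ok_Cn_Stmt_DEV : Pool.CRD.Cn.Stmt_DEV :=
  Pool.CRD.Cn.aDEV 

theorem ok_Cn_Stmt_CFD : Pool.CRD.Cn.Stmt_CFD :=
  Pool.CRD.Cn.cfd_proof ok_Cn_Stmt_CDM

theorem ok_Cn_Stmt_LMA : Pool.CRD.Cn.Stmt_LMA :=
  Pool.CRD.Cn.lma_proof ok_Cn_Stmt_CLA

theorem ok_Cn_Stmt_LMB : Pool.CRD.Cn.Stmt_LMB :=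
  Pool.CRD.Cn.lmb_proof ok_Cn_Stmt_CLB

theorem ok_Cn_Stmt_TFD : Pool.CRD.Cn.Stmt_TFD :=
  Pool.CRD.Cn.tfd_proof ok_Cn_Stmt_CDM ok_Cn_Stmt_CFD ok_Cn_Stmt_LMA ok_Cn_Stmt_LMB

theorem ok_Cn_Stmt_TSJ : Pool.CRD.Cn.Stmt_TSJ :=
  Pool.CRD.Cn.aTSJ 

theorem ok_Cn_Stmt_HOJ : Pool.CRD.Cn.Stmt_HOJ :=
  Pool.CRD.Cn.aHOJ 

theorem ok_Cn_Stmt_OJN : Pool.CRD.Cn.Stmt_OJN :=
  Pool.CRD.Cn.ojn_proof 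

theorem ok_Cn_Stmt_CHA : Pool.CRD.Cn.Stmt_CHA :=
  Pool.CRD.Cn.aCHA 

theorem ok_Cn_Stmt_RKA : Pool.CRD.Cn.Stmt_RKA :=
  Pool.CRD.Cn.rka_proof ok_Cn_Stmt_CDM

theorem ok_Cn_Stmt_PTS : Pool.CRD.Cn.Stmt_PTS :=
  Pool.CRD.Cn.pts_proof ok_Cn_Stmt_CDM ok_Cn_Stmt_TFD ok_Cn_Stmt_TSJ ok_Cn_Stmt_HOJ ok_Cn_Stmt_OJN ok_Cn_Stmt_CHA ok_Cn_Stmt_RKA ok_Cn_Stmt_LMA ok_Cn_Stmt_LMB ok_Cn_Stmt_CLA ok_Cn_Stmt_CLB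

theorem ok_Cn_Stmt_TWP : Pool.CRD.Cn.Stmt_TWP :=
  Pool.CRD.Cn.aTWP 

theorem ok_Cn_Stmt_SIM : Pool.CRD.Cn.Stmt_SIM :=
  Pool.CRD.Cn.aSIM 

theorem ok_Cn_Stmt_ADF : Pool.CRD.Cn.Stmt_ADF :=
  Pool.CRD.Cn.adf_proof ok_Cn_Stmt_DEV ok_Cn_Stmt_PTS ok_Cn_Stmt_TWP ok_Cn_Stmt_SIM ok_Cn_Stmt_CHA ok_Cn_Stmt_RKA ok_Cn_Stmt_OJN

theorem ok_Cn_Stmt_CTT : Pool.CRD.Cn.Stmt_CTT :=
  Pool.CRD.Cn.ctt_proof ok_Cn_Stmt_TFD ok_Cn_Stmt_TSJ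

theorem ok_Cn_Stmt_RR1 : Pool.CRD.Cn.Stmt_RR1 :=
  Pool.CRD.Cn.rr1_proof ok_Cn_Stmt_DEV ok_Cn_Stmt_CHA ok_Cn_Stmt_CTT ok_Cn_Stmt_TFD ok_Cn_Stmt_OJN ok_Cn_Stmt_RKA

theorem ok_FB_Stmt_RRF : Pool.CRD.FB.Stmt_RRF :=
  Pool.CRD.FB.rrf_proof ok_FB_Stmt_HFC ok_FB_Stmt_CHS ok_FB_Stmt_CEO ok_FB_Stmt_LNK ok_Cn_Stmt_ADF ok_Cn_Stmt_RR1

theorem ok_G_Stmt_SER : Pool.CRD.G.Stmt_SER :=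
  Pool.CRD.G.ser_proof 

theorem ok_G_Stmt_GNR : Pool.CRD.G.Stmt_GNR :=
  Pool.CRD.G.gnr_proof 

theorem ok_G_Stmt_FGN : Pool.CRD.G.Stmt_FGN :=
  Pool.CRD.G.fgn_proof ok_G_Stmt_GNR

theorem ok_FB_Stmt_SRV : Pool.CRD.FB.Stmt_SRV :=
  Pool.CRD.FB.srv_proof ok_G_Stmt_SER ok_G_Stmt_FGN ok_Cn_Stmt_LMA ok_Cn_Stmt_LMB

theorem ok_FB_Stmt_FLC : Pool.CRD.FB.Stmt_FLC :=
  Pool.CRD.FB.flc_proof 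

theorem ok_FB_Stmt_BCS : Pool.CRD.FB.Stmt_BCS :=
  Pool.CRD.FB.bcs_proof 

theorem ok_FB_Stmt_FLB : Pool.CRD.FB.Stmt_FLB :=
  Pool.CRD.FB.flb_proof 

theorem ok_FB_Stmt_TWG : Pool.CRD.FB.Stmt_TWG :=
  Pool.CRD.FB.twg_proof 

theorem ok_FB_Stmt_ISO : Pool.CRD.FB.Stmt_ISO :=
  Pool.CRD.FB.iso_proof 

theorem ok_FB_Stmt_GCO : Pool.CRD.FB.Stmt_GCO :=
  Pool.CRD.FB.gco_proof 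

theorem ok_FB_Stmt_FFL : Pool.CRD.FB.Stmt_FFL :=
  Pool.CRD.FB.ffl_proof ok_FB_Stmt_SRV ok_FB_Stmt_FLC ok_FB_Stmt_BCS ok_FB_Stmt_FLB ok_FB_Stmt_TWG ok_FB_Stmt_ISO ok_FB_Stmt_GCO ok_Cn_Stmt_CND ok_Cn_Stmt_RR1

theorem ok_FB_Stmt_GTR : Pool.CRD.FB.Stmt_GTR :=
  Pool.CRD.FB.gtr_proof 

theorem ok_FB_Stmt_GOK : Pool.CRD.FB.Stmt_GOK :=
  Pool.CRD.FB.gok_proof ok_FB_Stmt_CMC ok_FB_Stmt_GTR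

theorem ok_FB_Stmt_GOL : Pool.CRD.FB.Stmt_GOL :=
  Pool.CRD.FB.gol_proof ok_FB_Stmt_CMC ok_FB_Stmt_GTR

theorem ok_G_Stmt_FRX : Pool.CRD.G.Stmt_FRX :=
  Pool.CRD.G.frx_proof 

theorem ok_FB_Stmt_LOO : Pool.CRD.FB.Stmt_LOO :=
  Pool.CRD.FB.loo_proof ok_G_Stmt_FRX

theorem ok_FB_Stmt_FFX : Pool.CRD.FB.Stmt_FFX :=
  Pool.CRD.FB.ffx_proof ok_FB_Stmt_FFL ok_FB_Stmt_GOK ok_FB_Stmt_GOL ok_FB_Stmt_LOO ok_FB_Stmt_GCO ok_FB_Stmt_ISO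

theorem ok_FB_Stmt_NM1 : Pool.CRD.FB.Stmt_NM1 :=
  Pool.CRD.FB.nm1_proof ok_FB_Stmt_EXT ok_FB_Stmt_RRF ok_FB_Stmt_FFX ok_FB_Stmt_HFC ok_FB_Stmt_GCO

theorem ok_G_Stmt_TWA : Pool.CRD.G.Stmt_TWA :=
  Pool.CRD.G.twa_proof 

theorem ok_G_Stmt_TWB : Pool.CRD.G.Stmt_TWB :=
  Pool.CRD.G.twb_proof 

theorem ok_G_Stmt_TWC : Pool.CRD.G.Stmt_TWC :=
  Pool.CRD.G.twc_proof 

theorem ok_FB_Stmt_JTW : Pool.CRD.FB.Stmt_JTW :=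
  Pool.CRD.FB.jtw_proof ok_G_Stmt_TWA ok_G_Stmt_TWB ok_G_Stmt_TWC

theorem ok_D1_Stmt_TFA : Pool.CRD.D1.Stmt_TFA :=
  Pool.CRD.D1.tfa_proof 

theorem ok_D1_Stmt_TFS : Pool.CRD.D1.Stmt_TFS :=
  Pool.CRD.D1.tfs_proof 

theorem ok_FB_Stmt_XFR : Pool.CRD.FB.Stmt_XFR :=
  Pool.CRD.FB.xfr_proof 

theorem ok_D1_Stmt_TFR : Pool.CRD.D1.Stmt_TFR :=
  Pool.CRD.D1.tfr_proof ok_D1_Stmt_TFS ok_FB_Stmt_XFR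

theorem ok_D1_Stmt_TFB : Pool.CRD.D1.Stmt_TFB :=
  Pool.CRD.D1.tfb_proof ok_D1_Stmt_TFR

theorem ok_FB_Stmt_TFX : Pool.CRD.FB.Stmt_TFX :=
  Pool.CRD.FB.tfx_proof ok_D1_Stmt_TFA ok_D1_Stmt_TFB

theorem ok_FB_Stmt_GLT : Pool.CRD.FB.Stmt_GLT :=
  Pool.CRD.FB.glt_proof 

theorem ok_FB_Stmt_KOM : Pool.CRD.FB.Stmt_KOM :=
  Pool.CRD.FB.kom_proof ok_FB_Stmt_JTW ok_FB_Stmt_TFX ok_FB_Stmt_GLT ok_FB_Stmt_ISO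

theorem ok_FB_Stmt_TCH : Pool.CRD.FB.Stmt_TCH :=
  Pool.CRD.FB.tch_proof 

theorem ok_FB_Stmt_IDQ : Pool.CRD.FB.Stmt_IDQ :=
  Pool.CRD.FB.idq_proof 

theorem ok_FB_Stmt_ZVS : Pool.CRD.FB.Stmt_ZVS :=
  Pool.CRD.FB.zvs_proof 

theorem ok_FB_Stmt_CKS : Pool.CRD.FB.Stmt_CKS :=
  Pool.CRD.FB.cks_proof 

theorem ok_FB_Stmt_EVK : Pool.CRD.FB.Stmt_EVK :=
  Pool.CRD.FB.evk_proof ok_FB_Stmt_ZVS ok_FB_Stmt_ZVC ok_FB_Stmt_CKS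

theorem ok_FB_Stmt_QUI : Pool.CRD.FB.Stmt_QUI :=
  Pool.CRD.FB.qui_proof ok_FB_Stmt_EVK ok_FB_Stmt_ZVC

theorem ok_D1_Stmt_COQ : Pool.CRD.D1.Stmt_COQ :=
  Pool.CRD.D1.coq_proof 

theorem ok_D1_Stmt_COI : Pool.CRD.D1.Stmt_COI :=
  Pool.CRD.D1.coi_proof ok_D1_Stmt_COQ

theorem ok_FB_Stmt_KOZ : Pool.CRD.FB.Stmt_KOZ :=
  Pool.CRD.FB.koz_proof ok_FB_Stmt_JTW ok_FB_Stmt_TCH ok_FB_Stmt_TFX ok_FB_Stmt_IDQ ok_FB_Stmt_QUI ok_FB_Stmt_CHS ok_D1_Stmt_COI ok_D1_Stmt_COQ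

theorem ok_FB_Stmt_OXZ : Pool.CRD.FB.Stmt_OXZ :=
  Pool.CRD.FB.oxz_proof ok_FB_Stmt_ZVC

theorem ok_FB_Stmt_ICO : Pool.CRD.FB.Stmt_ICO :=
  Pool.CRD.FB.ico_proof ok_FB_Stmt_EVK

theorem ok_FB_Stmt_NM2 : Pool.CRD.FB.Stmt_NM2 :=
  Pool.CRD.FB.nm2_proof ok_FB_Stmt_NM1 ok_FB_Stmt_KOM ok_FB_Stmt_KOZ ok_FB_Stmt_FFX ok_FB_Stmt_OXZ ok_FB_Stmt_ICO ok_FB_Stmt_IEX ok_FB_Stmt_CHS ok_FB_Stmt_HFC ok_FB_Stmt_GCO ok_FB_Stmt_ISO ok_Cn_Stmt_ADF ok_Cn_Stmt_OJN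

theorem ok_FB_Stmt_ADV : Pool.CRD.FB.Stmt_ADV :=
  Pool.CRD.FB.adv_proof 

theorem ok_Cn_Stmt_DEE : Pool.CRD.Cn.Stmt_DEE :=
  Pool.CRD.Cn.aDEE 

theorem ok_FB_Stmt_NUM : Pool.CRD.FB.Stmt_NUM :=
  Pool.CRD.FB.num_proof ok_FB_Stmt_NM1 ok_FB_Stmt_NM2 ok_FB_Stmt_CHT ok_FB_Stmt_ADV ok_Cn_Stmt_CND ok_Cn_Stmt_DEE ok_Cn_Stmt_OJN ok_FB_Stmt_ICO ok_FB_Stmt_GCO

theorem ok_Cn_Stmt_REL : Pool.CRD.Cn.Stmt_REL :=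
  Pool.CRD.Cn.aREL 

theorem ok_FB_Stmt_SKP : Pool.CRD.FB.Stmt_SKP :=
  Pool.CRD.FB.skp_proof ok_FB_Stmt_EVK

theorem ok_FB_Stmt_NMR : Pool.CRD.FB.Stmt_NMR :=
  Pool.CRD.FB.nmr_proof ok_Cn_Stmt_REL ok_Cn_Stmt_CND ok_FB_Stmt_SKP

theorem ok_FB_Stmt_IFF : Pool.CRD.FB.Stmt_IFF :=
  Pool.CRD.FB.iff_proof ok_FB_Stmt_EVK

theorem ok_FB_Stmt_SKC : Pool.CRD.FB.Stmt_SKC :=
  Pool.CRD.FB.skc_proof ok_FB_Stmt_ZVS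

theorem ok_Ph_Stmt_SGT : Pool.CRD.Ph.Stmt_SGT :=
  Pool.CRD.Ph.sgt_proof 

theorem ok_Stmt_MVT : Pool.CRD.Stmt_MVT :=
  Pool.CRD.AB.t_mvt 

theorem ok_D1_Stmt_MVX : Pool.CRD.D1.Stmt_MVX :=
  Pool.CRD.D1.mvx_proof ok_Stmt_MVT

theorem ok_Stmt_LOC : Pool.CRD.Stmt_LOC :=
  Pool.CRD.AB.t_loc 

theorem ok_FB_Stmt_XLO : Pool.CRD.FB.Stmt_XLO :=
  Pool.CRD.FB.xlo_proof 

theorem ok_Stmt_AMP : Pool.CRD.Stmt_AMP :=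
  Pool.CRD.amp_proof 

theorem ok_Stmt_PCG : Pool.CRD.Stmt_PCG :=
  Pool.CRD.AB.t_pcg 

theorem ok_Stmt_SGD : Pool.CRD.Stmt_SGD :=
  Pool.CRD.sgd_proof ok_Stmt_AMP ok_Stmt_PCG

theorem ok_D1_Stmt_GOX : Pool.CRD.D1.Stmt_GOX :=
  Pool.CRD.D1.gox_proof ok_Stmt_SGD ok_D1_Stmt_AMX

theorem ok_D1_Stmt_LCX : Pool.CRD.D1.Stmt_LCX :=
  Pool.CRD.D1.lcx_proof ok_Stmt_LOC ok_FB_Stmt_XLO ok_D1_Stmt_GOX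

theorem ok_Stmt_CMP : Pool.CRD.Stmt_CMP :=
  Pool.CRD.AB.t_cmp 

theorem ok_Stmt_FGU : Pool.CRD.Stmt_FGU :=
  Pool.CRD.fgu_proof ok_Stmt_CMP ok_Stmt_SFG

theorem ok_D1_Stmt_AFI : Pool.CRD.D1.Stmt_AFI :=
  Pool.CRD.G.All_.ok_D1_Stmt_AFI 

theorem ok_D1_Stmt_AF1 : Pool.CRD.D1.Stmt_AF1 :=
  Pool.CRD.D1.af1_proof 

theorem ok_D1_Stmt_AF2 : Pool.CRD.D1.Stmt_AF2 :=
  Pool.CRD.D1.af2_proof 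

theorem ok_D1_Stmt_FGX : Pool.CRD.D1.Stmt_FGX :=
  Pool.CRD.D1.fgx_proof ok_Stmt_FGU ok_D1_Stmt_AFI ok_D1_Stmt_AF1 ok_D1_Stmt_AF2 ok_D1_Stmt_GOX

theorem ok_D1_Stmt_CLS : Pool.CRD.D1.Stmt_CLS :=
  Pool.CRD.D1.cls_proof 

theorem ok_D1_Stmt_TRC : Pool.CRD.D1.Stmt_TRC :=
  Pool.CRD.D1.trc_proof 

theorem ok_D1_Stmt_TOR : Pool.CRD.D1.Stmt_TOR :=
  Pool.CRD.D1.tor_proof ok_D1_Stmt_TRC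

theorem ok_D1_Stmt_TOM : Pool.CRD.D1.Stmt_TOM :=
  Pool.CRD.D1.tom_proof ok_D1_Stmt_TOR

theorem ok_D1_Stmt_PNT : Pool.CRD.D1.Stmt_PNT :=
  Pool.CRD.D1.pnt_proof 

theorem ok_D1_Stmt_PTD : Pool.CRD.D1.Stmt_PTD :=
  Pool.CRD.D1.ptd_proof ok_D1_Stmt_PNT

theorem ok_D1_Stmt_MUY : Pool.CRD.D1.Stmt_MUY :=
  Pool.CRD.D1.muy_proof 

theorem ok_D1_Stmt_RET : Pool.CRD.D1.Stmt_RET :=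
  Pool.CRD.D1.ret_proof ok_D1_Stmt_MUY

theorem ok_D1_Stmt_RES : Pool.CRD.D1.Stmt_RES :=
  Pool.CRD.D1.res_proof 

theorem ok_D1_Stmt_SEQ : Pool.CRD.D1.Stmt_SEQ :=
  Pool.CRD.D1.seq_proof 

theorem ok_D1_Stmt_CCD : Pool.CRD.D1.Stmt_CCD :=
  Pool.CRD.D1.ccd_proof 

theorem ok_D1_Stmt_LFT : Pool.CRD.D1.Stmt_LFT :=
  Pool.CRD.D1.lft_proof 

theorem ok_D1_Stmt_HER : Pool.CRD.D1.Stmt_HER :=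
  Pool.CRD.D1.her_proof 

theorem ok_D1_Stmt_RTR : Pool.CRD.D1.Stmt_RTR :=
  Pool.CRD.D1.rtr_proof 

theorem ok_Stmt_EVB : Pool.CRD.Stmt_EVB :=
  Pool.CRD.AB.t_evb 

theorem ok_Stmt_EFA : Pool.CRD.Stmt_EFA :=
  Pool.CRD.AB.t_efa 

theorem ok_D1_Stmt_EXA : Pool.CRD.D1.Stmt_EXA :=
  Pool.CRD.D1.exa_proof 

theorem ok_D1_Stmt_EXB : Pool.CRD.D1.Stmt_EXB :=
  Pool.CRD.D1.exb_proof ok_Stmt_EFA ok_D1_Stmt_EXA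

theorem ok_D1_Stmt_EXC : Pool.CRD.D1.Stmt_EXC :=
  Pool.CRD.D1.exc_proof 

theorem ok_D1_Stmt_EX2 : Pool.CRD.D1.Stmt_EX2 :=
  Pool.CRD.D1.ex2_proof ok_Stmt_EVB ok_Stmt_TRF ok_Stmt_MVT ok_Stmt_LOC ok_D1_Stmt_EXB ok_D1_Stmt_EXC ok_FB_Stmt_CGL ok_Cn_Stmt_CND ok_Cn_Stmt_CLA ok_Cn_Stmt_CDM ok_Cn_Stmt_CFD

theorem ok_FB_Stmt_IES : Pool.CRD.FB.Stmt_IES :=
  Pool.CRD.FB.ies_proof ok_FB_Stmt_EVK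

theorem ok_FB_Stmt_D1F : Pool.CRD.FB.Stmt_D1F :=
  Pool.CRD.D1.d1f_proof ok_D1_Stmt_MVX ok_D1_Stmt_LCX ok_D1_Stmt_FGX ok_D1_Stmt_AMX ok_Stmt_SEF ok_Stmt_FFD ok_Stmt_SRA ok_Stmt_TWK ok_Stmt_VBD ok_FB_Stmt_XGL ok_D1_Stmt_CLS ok_D1_Stmt_TOM ok_D1_Stmt_PTD ok_D1_Stmt_RET ok_D1_Stmt_RES ok_D1_Stmt_SEQ ok_D1_Stmt_COI ok_D1_Stmt_COQ ok_D1_Stmt_CCD ok_D1_Stmt_TFA ok_D1_Stmt_TFB ok_D1_Stmt_LFT ok_D1_Stmt_HER ok_D1_Stmt_RTR ok_D1_Stmt_EX2 ok_FB_Stmt_ICO ok_FB_Stmt_IEX ok_FB_Stmt_IFF ok_FB_Stmt_IES ok_FB_Stmt_HFC ok_Cn_Stmt_CND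

theorem ok_FB_Stmt_D2F : Pool.CRD.FB.Stmt_D2F :=
  Pool.CRD.FB.d2f_proof ok_D1_Stmt_AMX ok_Stmt_SRA ok_Stmt_TWK ok_Stmt_SEF ok_Stmt_HFN ok_Stmt_VBD ok_FB_Stmt_XGL ok_Cn_Stmt_CND ok_FB_Stmt_NUM ok_FB_Stmt_NMR ok_FB_Stmt_IFF ok_FB_Stmt_SKC ok_Ph_Stmt_SGT ok_FB_Stmt_D1F

theorem ok_Ph_Stmt_RPR : Pool.CRD.Ph.Stmt_RPR :=
  Pool.CRD.Ph.rpr_proof 

theorem ok_G_Stmt_LOS : Pool.CRD.G.Stmt_LOS :=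
  Pool.CRD.G.los_proof 

theorem ok_G_Stmt_STF : Pool.CRD.G.Stmt_STF :=
  Pool.CRD.G.stf_proof 

theorem ok_G_Stmt_CHP : Pool.CRD.G.Stmt_CHP :=
  Pool.CRD.G.chp_proof ok_G_Stmt_STF

theorem ok_G_Stmt_FGA : Pool.CRD.G.Stmt_FGA :=
  Pool.CRD.G.All_.ok_G_Stmt_FGA 

theorem ok_G_Stmt_PUC : Pool.CRD.G.Stmt_PUC :=
  Pool.CRD.G.puc_proof ok_G_Stmt_LOS ok_G_Stmt_CHP ok_G_Stmt_FGA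

theorem ok_G_Stmt_BRA : Pool.CRD.G.Stmt_BRA :=
  Pool.CRD.G.bra_proof 

theorem ok_G_Stmt_PBI : Pool.CRD.G.Stmt_PBI :=
  Pool.CRD.G.All_.ok_G_Stmt_PBI 

theorem ok_G_Stmt_VAN : Pool.CRD.G.Stmt_VAN :=
  Pool.CRD.G.All_.ok_G_Stmt_VAN 

theorem ok_G_Stmt_RAC : Pool.CRD.G.Stmt_RAC :=
  Pool.CRD.G.rac_proof 

theorem ok_G_Stmt_LRA : Pool.CRD.G.Stmt_LRA :=
  Pool.CRD.G.lra_proof ok_G_Stmt_BRA ok_G_Stmt_PBI ok_G_Stmt_VAN ok_G_Stmt_RAC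

theorem ok_G_Stmt_PRA : Pool.CRD.G.Stmt_PRA :=
  Pool.CRD.G.pra_proof 

theorem ok_G_Stmt_UAC : Pool.CRD.G.Stmt_UAC :=
  Pool.CRD.G.All_.ok_G_Stmt_UAC 

theorem ok_G_Stmt_LRB : Pool.CRD.G.Stmt_LRB :=
  Pool.CRD.G.lrb_proof ok_G_Stmt_BRA ok_G_Stmt_PBI ok_G_Stmt_PRA ok_G_Stmt_VAN ok_G_Stmt_UAC

theorem ok_G_Stmt_FTU : Pool.CRD.G.Stmt_FTU :=
  Pool.CRD.G.ftu_proof 

theorem ok_G_Stmt_FTG : Pool.CRD.G.Stmt_FTG :=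
  Pool.CRD.G.All_.ok_G_Stmt_FTG 

theorem ok_G_Stmt_KCA : Pool.CRD.G.Stmt_KCA :=
  Pool.CRD.G.kca_proof ok_G_Stmt_FTU ok_G_Stmt_FTG

theorem ok_G_Stmt_LRC : Pool.CRD.G.Stmt_LRC :=
  Pool.CRD.G.lrc_proof ok_G_Stmt_LRA ok_G_Stmt_LRB ok_G_Stmt_KCA

theorem ok_G_Stmt_EXB : Pool.CRD.G.Stmt_EXB :=
  Pool.CRD.G.All_.ok_G_Stmt_EXB 

theorem ok_G_Stmt_LER : Pool.CRD.G.Stmt_LER :=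
  Pool.CRD.G.ler_proof ok_G_Stmt_PUC ok_G_Stmt_LRC ok_G_Stmt_EXB ok_Stmt_FFD

theorem ok_G_Stmt_EFS : Pool.CRD.G.Stmt_EFS :=
  Pool.CRD.G.efs_proof ok_D1_Stmt_AMX ok_Stmt_SEF

theorem ok_G_Stmt_EFX : Pool.CRD.G.Stmt_EFX :=
  Pool.CRD.G.efx_proof ok_D1_Stmt_AMX ok_Stmt_SEF

theorem ok_Ph_Stmt_LER : Pool.CRD.Ph.Stmt_LER :=
  Pool.CRD.G.ph_ler_of ok_G_Stmt_LER ok_G_Stmt_EFS ok_G_Stmt_EFX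

theorem ok_G_Stmt_SEX : Pool.CRD.G.Stmt_SEX :=
  Pool.CRD.G.sex_proof ok_G_Stmt_CHP ok_G_Stmt_SER

theorem ok_Ph_Stmt_RSV : Pool.CRD.Ph.Stmt_RSV :=
  Pool.CRD.G.rsv_of ok_G_Stmt_SEX

theorem ok_Ph_Stmt_KZX : Pool.CRD.Ph.Stmt_KZX :=
  Pool.CRD.Ph.kzx_proof 

theorem ok_Ph_Stmt_TWM : Pool.CRD.Ph.Stmt_TWM :=
  Pool.CRD.Ph.twm_proof 

theorem ok_Ph_Stmt_PHT : Pool.CRD.Ph.Stmt_PHT :=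
  Pool.CRD.Ph.pht_proof 

theorem ok_Sky_Stmt_DVD : Pool.CRD.Sky.Stmt_DVD :=
  Pool.CRD.Sky.dvd_proof ok_Stmt_DVS

theorem ok_Ph_Stmt_RDF : Pool.CRD.Ph.Stmt_RDF :=
  Pool.CRD.Ph.rdf_proof ok_Ph_Stmt_RPR ok_Ph_Stmt_LER ok_Ph_Stmt_RSV ok_Ph_Stmt_KZX ok_Ph_Stmt_TWM ok_Ph_Stmt_PHT ok_Ph_Stmt_SGT ok_Sky_Stmt_DVD

theorem ok_Stmt_FFB : Pool.CRD.Stmt_FFB :=
  Pool.CRD.G.All_.ok_Stmt_FFB 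

theorem ok_G_Stmt_DFF : Pool.CRD.G.Stmt_DFF :=
  Pool.CRD.G.dff_proof ok_Stmt_FFD ok_Stmt_FFB

theorem ok_G_Stmt_FPD : Pool.CRD.G.Stmt_FPD :=
  Pool.CRD.G.fpd_proof ok_G_Stmt_DFF ok_G_Stmt_LRB ok_G_Stmt_EXB

theorem ok_Ph_Stmt_FFP : Pool.CRD.Ph.Stmt_FFP :=
  Pool.CRD.G.ph_ffp_of ok_G_Stmt_FPD ok_G_Stmt_EFS ok_G_Stmt_EFX

theorem ok_Ph_Stmt_PHF : Pool.CRD.Ph.Stmt_PHF :=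
  Pool.CRD.Ph.phf_proof ok_Ph_Stmt_FFP ok_Ph_Stmt_PHT ok_Ph_Stmt_TWM

theorem ok_Tra_Stmt_MVE : Pool.CRD.Tra.Stmt_MVE :=
  Pool.CRD.Tra.mve_proof 

theorem ok_Tra_Stmt_PRJ : Pool.CRD.Tra.Stmt_PRJ :=
  Pool.CRD.Tra.prj_proof 

theorem ok_Tra_Stmt_KPB : Pool.CRD.Tra.Stmt_KPB :=
  Pool.CRD.Tra.kpb_proof ok_Tra_Stmt_PRJ

theorem ok_Tra_Stmt_REP : Pool.CRD.Tra.Stmt_REP :=
  Pool.CRD.Tra.rep_proof 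

theorem ok_Tra_Stmt_CLA : Pool.CRD.Tra.Stmt_CLA :=
  Pool.CRD.Tra.cla_proof 

theorem ok_Tra_Stmt_JDL : Pool.CRD.Tra.Stmt_JDL :=
  Pool.CRD.Tra.jdl_proof 

theorem ok_Tra_Stmt_STB : Pool.CRD.Tra.Stmt_STB :=
  Pool.CRD.Tra.stb_proof ok_Tra_Stmt_JDL

theorem ok_Tra_Stmt_VLN : Pool.CRD.Tra.Stmt_VLN :=
  Pool.CRD.Tra.vln_proof 

theorem ok_Tra_Stmt_TAU : Pool.CRD.Tra.Stmt_TAU :=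
  Pool.CRD.Tra.tau_proof ok_Tra_Stmt_MVE ok_Tra_Stmt_KPB ok_Tra_Stmt_REP ok_Tra_Stmt_CLA ok_Tra_Stmt_STB ok_Tra_Stmt_VLN

theorem ok_Tra_Stmt_CYS : Pool.CRD.Tra.Stmt_CYS :=
  Pool.CRD.Tra.cys_proof 

theorem ok_Tra_Stmt_CYR : Pool.CRD.Tra.Stmt_CYR :=
  Pool.CRD.Tra.cyr_proof ok_Tra_Stmt_MVE ok_Tra_Stmt_KPB ok_Tra_Stmt_REP ok_Tra_Stmt_CLA ok_Tra_Stmt_CYS

theorem ok_Tra_Stmt_ROF : Pool.CRD.Tra.Stmt_ROF :=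
  Pool.CRD.Tra.rof_all ok_Stmt_VBR

theorem ok_Tra_Stmt_CYA : Pool.CRD.Tra.Stmt_CYA :=
  Pool.CRD.Tra.cya_proof ok_Tra_Stmt_CYR ok_Tra_Stmt_ROF ok_Tra_Stmt_TAU

theorem ok_Tra_Stmt_CYC : Pool.CRD.Tra.Stmt_CYC :=
  Pool.CRD.Tra.cyc_proof ok_Stmt_VBD ok_Tra_Stmt_TAU ok_Tra_Stmt_CYA

theorem ok_Tra_Stmt_THT : Pool.CRD.Tra.Stmt_THT :=
  Pool.CRD.Tra.tht_all 

theorem ok_Tra_Stmt_LAM : Pool.CRD.Tra.Stmt_LAM :=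
  Pool.CRD.Tra.lam_proof 

theorem ok_Tra_Stmt_FRS : Pool.CRD.Tra.Stmt_FRS :=
  Pool.CRD.Tra.frs_proof 

theorem ok_Tra_Stmt_RKF : Pool.CRD.Tra.Stmt_RKF :=
  Pool.CRD.Tra.rkf_proof 

theorem ok_Tra_Stmt_RKV : Pool.CRD.Tra.Stmt_RKV :=
  Pool.CRD.Tra.rkv_proof 

theorem ok_Tra_Stmt_TRA : Pool.CRD.Tra.Stmt_TRA :=
  Pool.CRD.Tra.tra_proof 

theorem ok_Tra_Stmt_FN0 : Pool.CRD.Tra.Stmt_FN0 :=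
  Pool.CRD.Tra.fn0_proof ok_Tra_Stmt_CYC ok_Tra_Stmt_THT ok_Tra_Stmt_LAM ok_Tra_Stmt_FRS ok_Tra_Stmt_RKF ok_Tra_Stmt_RKV ok_Tra_Stmt_TRA ok_Stmt_VBD

theorem ok_Tra_Stmt_CCT : Pool.CRD.Tra.Stmt_CCT :=
  Pool.CRD.Tra.cct_proof 

theorem ok_Tra_Stmt_KA1 : Pool.CRD.Tra.Stmt_KA1 :=
  Pool.CRD.Tra.ka1_all 

theorem ok_Tra_Stmt_KA2 : Pool.CRD.Tra.Stmt_KA2 :=
  Pool.CRD.Tra.ka2_proof 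

theorem ok_Tra_Stmt_D3M : Pool.CRD.Tra.Stmt_D3M :=
  Pool.CRD.Tra.d3m_proof ok_Tra_Stmt_FN0 ok_Tra_Stmt_CCT ok_Tra_Stmt_KA1 ok_Tra_Stmt_KA2

theorem ok_Ph_Stmt_TRS : Pool.CRD.Ph.Stmt_TRS :=
  Pool.CRD.Ph.trs_proof ok_Tra_Stmt_D3M ok_Stmt_SRA ok_Stmt_TWK ok_D1_Stmt_AMX ok_FB_Stmt_SGL

theorem ok_Ph_Stmt_H2O : Pool.CRD.Ph.Stmt_H2O :=
  Pool.CRD.Ph.h2o_proof ok_Stmt_FFD ok_Stmt_SEF ok_D1_Stmt_AMX ok_Tra_Stmt_KPB ok_Tra_Stmt_REP ok_Tra_Stmt_CLA ok_Tra_Stmt_MVE ok_Tra_Stmt_CCT ok_Tra_Stmt_KA1 ok_Tra_Stmt_KA2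

theorem ok_Sky_Stmt_LAT : Pool.CRD.Sky.Stmt_LAT :=
  Pool.CRD.Sky.lat_proof 

theorem ok_Sky_Stmt_JST : Pool.CRD.Sky.Stmt_JST :=
  Pool.CRD.Sky.c_jst 

theorem ok_Stmt_TRH : Pool.CRD.Stmt_TRH :=
  Pool.CRD.AB.t_trh 

theorem ok_Sky_Stmt_EVP : Pool.CRD.Sky.Stmt_EVP :=
  Pool.CRD.Sky.evp_proof ok_Stmt_TRF ok_Stmt_TRH ok_Stmt_LOC

theorem ok_Sky_Stmt_EVU : Pool.CRD.Sky.Stmt_EVU :=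
  Pool.CRD.Sky.c_evu 

theorem ok_Sky_Stmt_EVS : Pool.CRD.Sky.Stmt_EVS :=
  Pool.CRD.Sky.evs_proof ok_Sky_Stmt_EVP ok_Sky_Stmt_EVU ok_Stmt_EVB ok_Stmt_TRF ok_Stmt_FFD

theorem ok_Sky_Stmt_LSB : Pool.CRD.Sky.Stmt_LSB :=
  Pool.CRD.Sky.lsb_proof ok_Sky_Stmt_LAT ok_Sky_Stmt_JST ok_Sky_Stmt_EVS

theorem ok_Loc_Stmt_LDU : Pool.CRD.Loc.Stmt_LDU :=
  Pool.CRD.Loc.ldu 

theorem ok_Sky_Stmt_EXD : Pool.CRD.Sky.Stmt_EXD :=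
  Pool.CRD.Sky.exd_proof 

theorem ok_Sky_Stmt_DTP : Pool.CRD.Sky.Stmt_DTP :=
  Pool.CRD.Sky.dtp_proof 

theorem ok_Sky_Stmt_DTR : Pool.CRD.Sky.Stmt_DTR :=
  Pool.CRD.Sky.dtr_proof 

theorem ok_Sky_Stmt_PT2 : Pool.CRD.Sky.Stmt_PT2 :=
  Pool.CRD.Sky.pt2_proof ok_Sky_Stmt_LAT ok_Sky_Stmt_LSB ok_Sky_Stmt_EVS ok_Loc_Stmt_LDU ok_Sky_Stmt_EXD ok_Sky_Stmt_DTP ok_Sky_Stmt_DTR ok_Sky_Stmt_DVD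

theorem ok_Ph_Stmt_SKV : Pool.CRD.Ph.Stmt_SKV :=
  Pool.CRD.Ph.skv_proof ok_Sky_Stmt_PT2 ok_D1_Stmt_AMX ok_Stmt_SEF ok_FB_Stmt_SGL ok_Sky_Stmt_JST

theorem ok_Ph_Stmt_ADN : Pool.CRD.Ph.Stmt_ADN :=
  Pool.CRD.Ph.adn_proof 

theorem ok_Ph_Stmt_CCM : Pool.CRD.Ph.Stmt_CCM :=
  Pool.CRD.Ph.ccm_proof 

theorem ok_Ph_Stmt_VNC : Pool.CRD.Ph.Stmt_VNC :=
  Pool.CRD.Ph.vnc_proof 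

theorem ok_Ph_Stmt_CPS : Pool.CRD.Ph.Stmt_CPS :=
  Pool.CRD.Ph.cps_proof 

theorem ok_Ph_Stmt_RKP : Pool.CRD.Ph.Stmt_RKP :=
  Pool.CRD.Ph.rkp_proof 

theorem ok_Ph_Stmt_RKT : Pool.CRD.Ph.Stmt_RKT :=
  Pool.CRD.Ph.rkt_proof 

theorem ok_Ph_Stmt_PHO : Pool.CRD.Ph.Stmt_PHO :=
  Pool.CRD.Ph.pho_proof 

theorem ok_Ph_Stmt_RKC : Pool.CRD.Ph.Stmt_RKC :=
  Pool.CRD.Ph.rkc_proof ok_Ph_Stmt_LER ok_Ph_Stmt_KZX ok_Ph_Stmt_RKP ok_Ph_Stmt_RKT ok_Ph_Stmt_SGT ok_Ph_Stmt_TWM ok_Ph_Stmt_FFP ok_Ph_Stmt_PHO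

theorem ok_Ph_Stmt_RKB : Pool.CRD.Ph.Stmt_RKB :=
  Pool.CRD.Ph.rkb_proof ok_Ph_Stmt_RKC ok_Ph_Stmt_PHT ok_Ph_Stmt_PHO ok_Ph_Stmt_TWM ok_Ph_Stmt_SGT ok_Ph_Stmt_RKT

theorem ok_Ph_Stmt_D4A : Pool.CRD.Ph.Stmt_D4A :=
  Pool.CRD.Ph.d4a_proof ok_Ph_Stmt_RDF ok_Ph_Stmt_PHF ok_Ph_Stmt_TRS ok_Ph_Stmt_H2O ok_Ph_Stmt_SKV ok_Ph_Stmt_ADN ok_Ph_Stmt_CCM ok_Ph_Stmt_VNC ok_Ph_Stmt_CPS ok_Ph_Stmt_RKB ok_Ph_Stmt_RKT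

theorem ok_Stmt_LBC : Pool.CRD.Stmt_LBC :=
  Pool.CRD.Ph.lbc_proof 

theorem ok_Stmt_LBE : Pool.CRD.Stmt_LBE :=
  Pool.CRD.Ph.lbe_proof 

theorem ok_Ph_Stmt_FLT : Pool.CRD.Ph.Stmt_FLT :=
  Pool.CRD.Ph.flt_proof 

theorem ok_Ph_Stmt_POK : Pool.CRD.Ph.Stmt_POK :=
  Pool.CRD.Ph.pok_proof ok_Stmt_LBC ok_Stmt_LBE ok_Ph_Stmt_FLT

theorem ok_Stmt_IXT : Pool.CRD.Stmt_IXT :=
  Pool.CRD.Ph.ixt_proof ok_FB_Stmt_D2F ok_Ph_Stmt_D4A ok_D1_Stmt_GOX ok_Ph_Stmt_POK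

theorem ok_G_Stmt_EMO : Pool.CRD.G.Stmt_EMO :=
  Pool.CRD.G.All_.ok_G_Stmt_EMO 

theorem ok_G_Stmt_EIN : Pool.CRD.G.Stmt_EIN :=
  Pool.CRD.G.All_.ok_G_Stmt_EIN 

theorem ok_G_Stmt_SYM : Pool.CRD.G.Stmt_SYM :=
  Pool.CRD.G.sym_proof 

theorem ok_G_Stmt_LBI : Pool.CRD.G.Stmt_LBI :=
  Pool.CRD.G.lbi_proof ok_G_Stmt_EMO ok_G_Stmt_EIN ok_G_Stmt_TWA ok_G_Stmt_SYM

theorem ok_G_Stmt_TEX : Pool.CRD.G.Stmt_TEX :=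
  Pool.CRD.G.tex_proof ok_G_Stmt_TWC

theorem ok_G_Stmt_PCO : Pool.CRD.G.Stmt_PCO :=
  Pool.CRD.G.pco_proof 

theorem ok_G_Stmt_LRD : Pool.CRD.G.Stmt_LRD :=
  Pool.CRD.G.lrd_proof ok_G_Stmt_LRB ok_G_Stmt_TWC

theorem ok_G_Stmt_HPL : Pool.CRD.G.Stmt_HPL :=
  Pool.CRD.G.All_.ok_G_Stmt_HPL 

theorem ok_G_Stmt_DOR : Pool.CRD.G.Stmt_DOR :=
  Pool.CRD.G.All_.ok_G_Stmt_DOR 

theorem ok_G_Stmt_SBF : Pool.CRD.G.Stmt_SBF :=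
  Pool.CRD.G.sbf_proof 

theorem ok_G_Stmt_DVB : Pool.CRD.G.Stmt_DVB :=
  Pool.CRD.G.dvb_proof ok_Stmt_DVS

theorem ok_G_Stmt_IMG : Pool.CRD.G.Stmt_IMG :=
  Pool.CRD.G.All_.ok_G_Stmt_IMG 

theorem ok_G_Stmt_CNT : Pool.CRD.G.Stmt_CNT :=
  Pool.CRD.G.cnt_proof ok_G_Stmt_CHP ok_G_Stmt_GNR ok_G_Stmt_FTU ok_G_Stmt_FTG

theorem ok_G_Stmt_PSI : Pool.CRD.G.Stmt_PSI :=
  Pool.CRD.G.psi_proof 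

theorem ok_G_Stmt_MOR : Pool.CRD.G.Stmt_MOR :=
  Pool.CRD.G.mor_proof 

theorem ok_G_Stmt_LFO : Pool.CRD.G.Stmt_LFO :=
  Pool.CRD.G.lfo_proof ok_G_Stmt_PSI ok_G_Stmt_MOR

theorem ok_G_Stmt_GDL : Pool.CRD.G.Stmt_GDL :=
  Pool.CRD.G.All_.ok_G_Stmt_GDL 

theorem ok_G_Stmt_FTL : Pool.CRD.G.Stmt_FTL :=
  Pool.CRD.G.ftl_proof ok_G_Stmt_CHP ok_G_Stmt_LFO ok_G_Stmt_GDL ok_G_Stmt_STF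

theorem ok_G_Stmt_FTT : Pool.CRD.G.Stmt_FTT :=
  Pool.CRD.G.ftt_proof 

theorem ok_G_Stmt_FTI : Pool.CRD.G.Stmt_FTI :=
  Pool.CRD.G.All_.ok_G_Stmt_FTI 

theorem ok_G_Stmt_FTC : Pool.CRD.G.Stmt_FTC :=
  Pool.CRD.G.ftc_proof ok_G_Stmt_FTG

theorem ok_G_Stmt_SPL : Pool.CRD.G.Stmt_SPL :=
  Pool.CRD.G.All_.ok_G_Stmt_SPL 

theorem ok_G_Stmt_DSC : Pool.CRD.G.Stmt_DSC :=
  Pool.CRD.G.dsc_proof ok_G_Stmt_SPL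

theorem ok_G_Stmt_EFF : Pool.CRD.G.Stmt_EFF :=
  Pool.CRD.G.eff_proof ok_G_Stmt_FTL ok_G_Stmt_FTT ok_G_Stmt_FTI ok_G_Stmt_FTC ok_G_Stmt_DSC ok_G_Stmt_TWB ok_G_Stmt_SYM

theorem ok_G_Stmt_TTH : Pool.CRD.G.Stmt_TTH :=
  Pool.CRD.G.tth_proof 

theorem ok_G_Stmt_GRG : Pool.CRD.G.Stmt_GRG :=
  Pool.CRD.G.grg_proof ok_G_Stmt_CNT ok_G_Stmt_PUC ok_G_Stmt_EFF ok_G_Stmt_PCO ok_G_Stmt_TTH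

theorem ok_G_Stmt_KOS : Pool.CRD.G.Stmt_KOS :=
  Pool.CRD.G.kos_proof 

theorem ok_G_Stmt_GNA : Pool.CRD.G.Stmt_GNA :=
  Pool.CRD.G.gna_proof ok_G_Stmt_SEX ok_G_Stmt_GRG ok_G_Stmt_KOS ok_G_Stmt_TTH ok_Stmt_TWK

theorem ok_Stmt_LPJ : Pool.CRD.Stmt_LPJ :=
  Pool.CRD.lpj_proof 

theorem ok_Stmt_SO1 : Pool.CRD.Stmt_SO1 :=
  Pool.CRD.so1_proof ok_Ph_Stmt_RPR ok_Stmt_LPJ

theorem ok_Stmt_SO2 : Pool.CRD.Stmt_SO2 :=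
  Pool.CRD.so2_proof ok_Stmt_SO1

theorem ok_Stmt_SPS : Pool.CRD.Stmt_SPS :=
  Pool.CRD.sps_proof ok_G_Stmt_LBI ok_G_Stmt_TWB ok_G_Stmt_TEX ok_G_Stmt_TWC ok_G_Stmt_PCO ok_G_Stmt_EXB ok_G_Stmt_LRA ok_G_Stmt_LRB ok_G_Stmt_LRD ok_G_Stmt_HPL ok_G_Stmt_DFF ok_G_Stmt_DOR ok_G_Stmt_SBF ok_G_Stmt_DVB ok_G_Stmt_IMG ok_G_Stmt_GNA ok_G_Stmt_EFS ok_G_Stmt_EFX ok_Stmt_SO2

theorem ok_Stmt_TSA : Pool.CRD.Stmt_TSA :=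
  Pool.CRD.tsa_proof 

theorem ok_Stmt_GOO : Pool.CRD.Stmt_GOO :=
  Pool.CRD.goo_proof 

theorem ok_Stmt_CAR : Pool.CRD.Stmt_CAR :=
  Pool.CRD.car_proof 

theorem ok_Stmt_UNT : Pool.CRD.Stmt_UNT :=
  Pool.CRD.q_unt 

theorem ok_Stmt_CUN : Pool.CRD.Stmt_CUN :=
  Pool.CRD.q_cun 

theorem ok_Stmt_COH : Pool.CRD.Stmt_COH :=
  Pool.CRD.coh_proof ok_Stmt_CAR ok_Stmt_UNT ok_Stmt_CUN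

theorem ok_TransAll : Pool.CRD.TransAll :=
  Pool.CRD.q_trans 

theorem ok_Stmt_F2a : Pool.CRD.Stmt_F2a :=
  Pool.CRD.Cf2.f2a 

theorem ok_Stmt_CBA : Pool.CRD.Stmt_CBA :=
  Pool.CRD.cba_proof 

theorem ok_Stmt_ACF : Pool.CRD.Stmt_ACF :=
  Pool.CRD.pf_ACF 

theorem ok_Stmt_CPD : Pool.CRD.Stmt_CPD :=
  Pool.CRD.Cf2.hCPD 

theorem ok_Stmt_CFM : Pool.CRD.Stmt_CFM :=
  Pool.CRD.Cf2.hCFM 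

theorem ok_Stmt_GXX : Pool.CRD.Stmt_GXX :=
  Pool.CRD.Cf2.hGXX 

theorem ok_Stmt_JMO : Pool.CRD.Stmt_JMO :=
  Pool.CRD.jmo_proof 

theorem ok_Stmt_JFS : Pool.CRD.Stmt_JFS :=
  Pool.CRD.JFS_proof 

theorem ok_Stmt_PXS : Pool.CRD.Stmt_PXS :=
  Pool.CRD.pxs_proof 

theorem ok_Stmt_PXV : Pool.CRD.Stmt_PXV :=
  Pool.CRD.pxv_proof 

theorem ok_Stmt_PDX : Pool.CRD.Stmt_PDX :=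
  Pool.CRD.pdx_proof ok_Stmt_PXV ok_Stmt_PXS

theorem ok_Stmt_PJA : Pool.CRD.Stmt_PJA :=
  Pool.CRD.pja_proof 

theorem ok_Stmt_PJD : Pool.CRD.Stmt_PJD :=
  Pool.CRD.pjd_proof 

theorem ok_Stmt_PJC : Pool.CRD.Stmt_PJC :=
  Pool.CRD.pjc_proof 

theorem ok_Stmt_PJE : Pool.CRD.Stmt_PJE :=
  Pool.CRD.pje 

theorem ok_Stmt_PJF : Pool.CRD.Stmt_PJF :=
  Pool.CRD.pjf 

theorem ok_Stmt_PJM : Pool.CRD.Stmt_PJM :=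
  Pool.CRD.pjm ok_Stmt_PJA ok_Stmt_PJD ok_Stmt_PJC ok_Stmt_PJE ok_Stmt_PJF

theorem ok_Stmt_BCH : Pool.CRD.Stmt_BCH :=
  Pool.CRD.bch_proof 

theorem ok_Stmt_BCJ : Pool.CRD.Stmt_BCJ :=
  Pool.CRD.bcj_proof ok_Stmt_BCH

theorem ok_Stmt_SMC : Pool.CRD.Stmt_SMC :=
  Pool.CRD.smc_proof 

theorem ok_Stmt_PFT : Pool.CRD.Stmt_PFT :=
  Pool.CRD.pft 

theorem ok_Stmt_CPR : Pool.CRD.Stmt_CPR :=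
  Pool.CRD.Cf2.hCPR 

theorem ok_Stmt_DEX : Pool.CRD.Stmt_DEX :=
  Pool.CRD.dex_proof 

theorem ok_Stmt_NSO : Pool.CRD.Stmt_NSO :=
  Pool.CRD.nso_proof 

theorem ok_Stmt_SEX : Pool.CRD.Stmt_SEX :=
  Pool.CRD.Cf2.hSEX 

theorem ok_Stmt_CEX : Pool.CRD.Stmt_CEX :=
  Pool.CRD.Cf2.hCEX 

theorem ok_Stmt_FAM : Pool.CRD.Stmt_FAM :=
  Pool.CRD.fam_proof ok_Stmt_CBA ok_Stmt_ACF ok_Stmt_CPD ok_Stmt_CFM ok_Stmt_GXX ok_Stmt_JMO ok_Stmt_JFS ok_Stmt_PXS ok_Stmt_PDX ok_Stmt_PJM ok_Stmt_BCJ ok_Stmt_SMC ok_Stmt_PFT ok_Stmt_CPR ok_Stmt_DEX ok_Stmt_NSO ok_Stmt_SEX ok_Stmt_CEX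

theorem ok_Stmt_GSS : Pool.CRD.Stmt_GSS :=
  Pool.CRD.Cf2.hGSS 

theorem ok_Stmt_PDS : Pool.CRD.Stmt_PDS :=
  Pool.CRD.pds_proof 

theorem ok_Stmt_RSK : Pool.CRD.Stmt_RSK :=
  Pool.CRD.rsk 

theorem ok_Stmt_DM1 : Pool.CRD.Stmt_DM1 :=
  Pool.CRD.dm1_proof 

theorem ok_Stmt_DM2 : Pool.CRD.Stmt_DM2 :=
  Pool.CRD.dm2_proof 

theorem ok_Stmt_DIM : Pool.CRD.Stmt_DIM :=
  Pool.CRD.dim ok_Stmt_DM1 ok_Stmt_DM2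

theorem ok_Stmt_ZSU : Pool.CRD.Stmt_ZSU :=
  Pool.CRD.zsu_proof ok_Stmt_CBA ok_Stmt_ACF ok_Stmt_CPD ok_Stmt_CFM ok_Stmt_GSS ok_Stmt_JFS ok_Stmt_PDS ok_Stmt_PJM ok_Stmt_SMC ok_Stmt_PFT ok_Stmt_RSK ok_Stmt_DIM ok_Stmt_CEX

theorem ok_Stmt_GMF : Pool.CRD.Stmt_GMF :=
  Pool.CRD.gmf 

theorem ok_Stmt_INT : Pool.CRD.Stmt_INT :=
  Pool.CRD.int_proof 

theorem ok_Stmt_CG1 : Pool.CRD.Stmt_CG1 :=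
  Pool.CRD.Cf2.hCG1 

theorem ok_Stmt_E1N : Pool.CRD.Stmt_E1N :=
  Pool.CRD.e1n_proof 

theorem ok_Stmt_SP0 : Pool.CRD.Stmt_SP0 :=
  Pool.CRD.sp0_proof 

theorem ok_Stmt_F2K : Pool.CRD.Stmt_F2K :=
  Pool.CRD.f2k_proof ok_Stmt_FAM ok_Stmt_ZSU ok_Stmt_GMF ok_Stmt_INT ok_Stmt_CPR ok_Stmt_CG1 ok_Stmt_DEX ok_Stmt_NSO ok_Stmt_SEX ok_Stmt_CEX ok_Stmt_E1N ok_Stmt_SP0

theorem ok_Stmt_CRD3 : Pool.CRD.Stmt_CRD3 :=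
  Pool.CRD.crd3_proof ok_Stmt_T1A ok_Stmt_T2A ok_Stmt_IYT ok_Stmt_IXT ok_Stmt_SPS ok_Stmt_TSA ok_Stmt_GOO ok_Stmt_COH ok_TransAll ok_Stmt_F2a ok_Stmt_F2K

end Pool.CRD.Main
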